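import Mathlib

set_option autoImplicit false

namespace Pool.Agent.Results.MP_b5aa09_co.PappusCounterexample

/-- Points `(x i, y i)` for the vertices and non-vertical lines `A j * X + Y + C j = 0` for the faces. -/
structure Scene (V F : Type) where
  x : V → ℝ
  y : V → ℝ
  A : F → ℝ
  C : F → ℝ

/-- The scene realises the incidences `I`, i.e. it is a 2-scene of `(V, F; I)`. -/
def Realises {V F : Type} (s : Scene V F) (I : Finset (V × F)) : Prop :=
  ∀ p ∈ I, s.A p.2 * s.x p.1 + s.y p.1 + s.C p.2 = 0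

/-- The `2|V| + 2|F|` real variables. -/
structure Motion (V F : Type) where
  u : V → ℝ
  w : V → ℝ
  U : F → ℝ
  W : F → ℝ

/-- The linear form of an incidence. -/
def incForm {V F : Type} (s : Scene V F) (p : V × F) : Motion V F → ℝ :=
  fun m => s.A p.2 * m.u p.1 + s.x p.1 * m.U p.2 + m.w p.1 + m.W p.2

/-- The linear form of a distance constraint. -/
def distForm {V F : Type} (s : Scene V F) (e : V × V) : Motion V F → ℝ :=
  fun m => (s.x e.1 - s.x e.2) * (m.u e.1 - m.u e.2) + (s.y e.1 - s.y e.2) * (m.w e.1 - m.w e.2)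

/-- `I` is independent at the scene. -/
def IncIndep {V F : Type} (s : Scene V F) (I : Finset (V × F)) : Prop :=
  LinearIndependent ℝ (fun p : I => incForm s p.1)

/-- `E ∪ I` is independent at the scene. -/
def BothIndep {V F : Type} (s : Scene V F) (E : Finset (V × V)) (I : Finset (V × F)) : Prop :=
  LinearIndependent ℝ (Sum.elim (fun e : E => distForm s e.1) (fun p : I => incForm s p.1))

/-- `E` lists unordered pairs of distinct vertices, each at most once. -/
def ProperPairs {V : Type} (E : Finset (V × V)) : Prop := ∀ i k, (i, k) ∈ E → (k, i) ∉ E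

/-- The vertices occurring in `E' ∪ I'`. -/
def verts {V F : Type} [DecidableEq V] (E' : Finset (V × V)) (I' : Finset (V × F)) : Finset V :=
  E'.image Prod.fst ∪ E'.image Prod.snd ∪ I'.image Prod.fst

/-- The faces occurring in `I'`. -/
def faces {V F : Type} [DecidableEq F] (I' : Finset (V × F)) : Finset F := I'.image Prod.snd

/-- The count `|E'| + |I'| ≤ 2|V'| + 2|F'| - 3` for all nonempty subsets. -/
def Count {V F : Type} [DecidableEq V] [DecidableEq F] (E : Finset (V × V)) (I : Finset (V × F)) : Prop :=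
  ∀ E' ⊆ E, ∀ I' ⊆ I, (E'.Nonempty ∨ I'.Nonempty) →
    E'.card + I'.card + 3 ≤ 2 * (verts E' I').card + 2 * (faces I').card

/-! ### Pappus configuration without its last line

points: `A₁,A₂,A₃ = 0,1,2`, `B₁,B₂,B₃ = 3,4,5`, `C₁,C₂,C₃ = 6,7,8`. -/

def pt : Fin 8 → Fin 3 → Fin 9 :=
  ![![0, 1, 2], ![3, 4, 5], ![0, 4, 8], ![1, 3, 8], ![0, 5, 7], ![2, 3, 7], ![1, 5, 6], ![2, 4, 6]]

def ed : Fin 6 → Fin 9 × Fin 9 := ![(6, 7), (7, 8), (6, 8), (0, 4), (1, 5), (2, 3)]

def inc (t : Fin 8 × Fin 3) : Fin 9 × Fin 8 := (pt t.1 t.2, t.1)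

def II : Finset (Fin 9 × Fin 8) := Finset.univ.image inc

def EE : Finset (Fin 9 × Fin 9) := Finset.univ.image ed

theorem mem_II (j : Fin 8) (k : Fin 3) : (pt j k, j) ∈ II :=
  Finset.mem_image.mpr ⟨(j, k), Finset.mem_univ _, rfl⟩

theorem mem_EE (t : Fin 6) : ed t ∈ EE := Finset.mem_image.mpr ⟨t, Finset.mem_univ _, rfl⟩

/-- Pappus' theorem in the form needed. -/
theorem pappus (s : Scene (Fin 9) (Fin 8)) (h : Realises s II) (h1 : s.x 0 ≠ s.x 4) (h2 : s.x 1 ≠ s.x 5)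
    (h3 : s.x 2 ≠ s.x 3) :
    (s.x 7 - s.x 6) * (s.y 8 - s.y 6) - (s.x 8 - s.x 6) * (s.y 7 - s.y 6) = 0 := by
  have g0 := h _ (mem_II 0 0)
  have g1 := h _ (mem_II 0 1)
  have g2 := h _ (mem_II 0 2)
  have h0 := h _ (mem_II 1 0)
  have h1' := h _ (mem_II 1 1)
  have h2' := h _ (mem_II 1 2)
  have a0 := h _ (mem_II 2 0)
  have a1 := h _ (mem_II 2 1)
  have a2 := h _ (mem_II 2 2)
  have b0 := h _ (mem_II 3 0)
  have b1 := h _ (mem_II 3 1)
  have b2 := h _ (mem_II 3 2)
  have c0 := h _ (mem_II 4 0)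
  have c1 := h _ (mem_II 4 1)
  have c2 := h _ (mem_II 4 2)
  have d0 := h _ (mem_II 5 0)
  have d1 := h _ (mem_II 5 1)
  have d2 := h _ (mem_II 5 2)
  have e0 := h _ (mem_II 6 0)
  have e1 := h _ (mem_II 6 1)
  have e2 := h _ (mem_II 6 2)
  have f0 := h _ (mem_II 7 0)
  have f1 := h _ (mem_II 7 1)
  have f2 := h _ (mem_II 7 2)
  simp only [pt, Matrix.cons_val] at g0 g1 g2 h0 h1' h2' a0 a1 a2 b0 b1 b2 c0 c1 c2 d0 d1 d2 e0 e1 e2 f0 f1 f2
  obtain ⟨p, hp⟩ : ∃ p, p = (s.x 8 - s.x 0) / (s.x 4 - s.x 0) := ⟨_, rfl⟩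
  obtain ⟨q, hq⟩ : ∃ q, q = (s.x 6 - s.x 1) / (s.x 5 - s.x 1) := ⟨_, rfl⟩
  obtain ⟨r, hr⟩ : ∃ r, r = (s.x 7 - s.x 2) / (s.x 3 - s.x 2) := ⟨_, rfl⟩
  have x8 : s.x 8 = s.x 0 + p * (s.x 4 - s.x 0) := by
    rw [hp, div_mul_cancel₀ _ (sub_ne_zero.mpr h1.symm)]; ring
  have x6 : s.x 6 = s.x 1 + q * (s.x 5 - s.x 1) := by
    rw [hq, div_mul_cancel₀ _ (sub_ne_zero.mpr h2.symm)]; ring
  have x7 : s.x 7 = s.x 2 + r * (s.x 3 - s.x 2) := by
    rw [hr, div_mul_cancel₀ _ (sub_ne_zero.mpr h3.symm)]; ring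
  have y8 : s.y 8 = s.y 0 + p * (s.y 4 - s.y 0) := by
    linear_combination a2 - (1 - p) * a0 - p * a1 - s.A 2 * x8
  have y6 : s.y 6 = s.y 1 + q * (s.y 5 - s.y 1) := by
    linear_combination e2 - (1 - q) * e0 - q * e1 - s.A 6 * x6
  have y7 : s.y 7 = s.y 2 + r * (s.y 3 - s.y 2) := by
    linear_combination d2 - (1 - r) * d0 - r * d1 - s.A 5 * x7
  -- determinants
  have D4 : (s.x 1 - s.x 0) * (s.y 2 - s.y 0) - (s.x 2 - s.x 0) * (s.y 1 - s.y 0) = 0 := by
    linear_combination (s.x 1 - s.x 0) * (g2 - g0) - (s.x 2 - s.x 0) * (g1 - g0)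
  have D5 : (s.x 4 - s.x 3) * (s.y 5 - s.y 3) - (s.x 5 - s.x 3) * (s.y 4 - s.y 3) = 0 := by
    linear_combination (s.x 4 - s.x 3) * (h2' - h0) - (s.x 5 - s.x 3) * (h1' - h0)
  have D1 : (s.x 3 - s.x 1) * (s.y 8 - s.y 1) - (s.x 8 - s.x 1) * (s.y 3 - s.y 1) = 0 := by
    linear_combination (s.x 3 - s.x 1) * (b2 - b0) - (s.x 8 - s.x 1) * (b1 - b0)
  have D2 : (s.x 4 - s.x 2) * (s.y 6 - s.y 2) - (s.x 6 - s.x 2) * (s.y 4 - s.y 2) = 0 := by
    linear_combination (s.x 4 - s.x 2) * (f2 - f0) - (s.x 6 - s.x 2) * (f1 - f0)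
  have D3 : (s.x 5 - s.x 0) * (s.y 7 - s.y 0) - (s.x 7 - s.x 0) * (s.y 5 - s.y 0) = 0 := by
    linear_combination (s.x 5 - s.x 0) * (c2 - c0) - (s.x 7 - s.x 0) * (c1 - c0)
  rw [x8, y8] at D1
  rw [x6, y6] at D2
  rw [x7, y7] at D3
  rw [x6, x7, x8, y6, y7, y8]
  linear_combination p * (1 - r) * D2 + r * (1 - q) * D1 + q * (1 - p) * D3 +
    (1 - q) * (1 - r) * (1 - p) * D4 + q * r * p * D5

theorem dep (s : Scene (Fin 9) (Fin 8)) (h : Realises s II)
    (hli : LinearIndependent ℝ (fun e : EE => distForm s e.1)) : False := by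
  have a0 := h _ (mem_II 2 0)
  have a1 := h _ (mem_II 2 1)
  have e0 := h _ (mem_II 6 0)
  have e1 := h _ (mem_II 6 1)
  have d0 := h _ (mem_II 5 0)
  have d1 := h _ (mem_II 5 1)
  simp only [pt, Matrix.cons_val] at a0 a1 e0 e1 d0 d1
  have hne : ∀ t : Fin 6, distForm s (ed t) ≠ 0 := fun t => hli.ne_zero ⟨ed t, mem_EE t⟩
  have key : ∀ t : Fin 6, ¬ (s.x (ed t).1 = s.x (ed t).2 ∧ s.y (ed t).1 = s.y (ed t).2) := by
    rintro t ⟨h1, h2⟩
    apply hne t
    funext m
    unfold distForm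
    rw [h1, h2, sub_self, sub_self, zero_mul, zero_mul, add_zero]
    rfl
  have h1 : s.x 0 ≠ s.x 4 := by
    intro hx
    apply key 3
    refine ⟨hx, ?_⟩
    show s.y 0 = s.y 4
    rw [← hx] at a1
    linarith
  have h2 : s.x 1 ≠ s.x 5 := by
    intro hx
    apply key 4
    refine ⟨hx, ?_⟩
    show s.y 1 = s.y 5
    rw [← hx] at e1
    linarith
  have h3 : s.x 2 ≠ s.x 3 := by
    intro hx
    apply key 5
    refine ⟨hx, ?_⟩
    show s.y 2 = s.y 3
    rw [← hx] at d1
    linarith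
  have hcol := pappus s h h1 h2 h3
  have h67 : ¬ (s.x 6 = s.x 7 ∧ s.y 6 = s.y 7) := key 0
  obtain ⟨τ, hτx, hτy⟩ : ∃ τ, s.x 8 - s.x 6 = τ * (s.x 7 - s.x 6) ∧ s.y 8 - s.y 6 = τ * (s.y 7 - s.y 6) := by
    by_cases hx : s.x 6 = s.x 7
    · have hy : s.y 7 - s.y 6 ≠ 0 := fun hy => h67 ⟨hx, by linarith⟩
      refine ⟨(s.y 8 - s.y 6) / (s.y 7 - s.y 6), ?_, by field_simp⟩
      rw [← hx, sub_self, zero_mul] at hcol
      rw [← hx, sub_self, mul_zero]
      have : (s.x 8 - s.x 6) * (s.y 7 - s.y 6) = 0 := by linarith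
      rcases mul_eq_zero.mp this with h | h
      · exact h
      · exact absurd h hy
    · have hx' : s.x 7 - s.x 6 ≠ 0 := sub_ne_zero.mpr (Ne.symm hx)
      refine ⟨(s.x 8 - s.x 6) / (s.x 7 - s.x 6), by field_simp, ?_⟩
      field_simp
      linarith
  have hinj : Function.Injective (![⟨ed 0, mem_EE 0⟩, ⟨ed 1, mem_EE 1⟩, ⟨ed 2, mem_EE 2⟩] : Fin 3 → EE) := by
    intro i j hij
    have hij' := congrArg Subtype.val hij
    fin_cases i <;> fin_cases j <;> first | rfl | (exfalso; revert hij'; decide)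
  have hli3 := hli.comp _ hinj
  rw [Fintype.linearIndependent_iff] at hli3
  have hsum := hli3 ![-(τ * (τ - 1)), -τ, τ - 1] (by
    funext m
    rw [Fin.sum_univ_three]
    show -(τ * (τ - 1)) * ((s.x 6 - s.x 7) * (m.u 6 - m.u 7) + (s.y 6 - s.y 7) * (m.w 6 - m.w 7)) +
      -τ * ((s.x 7 - s.x 8) * (m.u 7 - m.u 8) + (s.y 7 - s.y 8) * (m.w 7 - m.w 8)) +
      (τ - 1) * ((s.x 6 - s.x 8) * (m.u 6 - m.u 8) + (s.y 6 - s.y 8) * (m.w 6 - m.w 8)) = 0
    have hx8 : s.x 8 = s.x 6 + τ * (s.x 7 - s.x 6) := by linarith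
    have hy8 : s.y 8 = s.y 6 + τ * (s.y 7 - s.y 6) := by linarith
    rw [hx8, hy8]
    ring)
  have t1 : -τ = 0 := hsum 1
  have t2 : τ - 1 = 0 := hsum 2
  linarith


/-- A nondegenerate scene realising the configuration. -/
noncomputable def sc : Scene (Fin 9) (Fin 8) where
  x := ![0, 1, 2, 5, 7, 10, 13 / 4, 20 / 7, 7 / 3]
  y := ![0, 0, 0, 1, 1, 1, 1 / 4, 2 / 7, 1 / 3]
  A := ![0, 0, -1 / 7, -1 / 4, -1 / 10, -1 / 3, -1 / 9, -1 / 5]
  C := ![0, -1, 0, 1 / 4, 0, 2 / 3, 1 / 9, 2 / 5]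

theorem sc_real : Realises sc II := by
  intro p hp
  obtain ⟨⟨j, k⟩, _, rfl⟩ := Finset.mem_image.mp hp
  fin_cases j <;> fin_cases k <;> (simp [inc, pt, sc]; try norm_num)

theorem lin_ind : LinearIndependent ℝ (fun t : Fin 8 × Fin 3 => incForm sc (inc t)) := by
  rw [Fintype.linearIndependent_iff]
  intro c hc
  have hm : ∀ m : Motion (Fin 9) (Fin 8), ∑ t, c t * incForm sc (inc t) m = 0 := by
    intro m
    have := congrFun hc m
    rw [Finset.sum_apply] at this
    exact this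
  have hu : ∀ v : Fin 9, ∑ t : Fin 8 × Fin 3, c t * (sc.A t.1 * (if pt t.1 t.2 = v then 1 else 0)) = 0 := by
    intro v
    have := hm ⟨fun i => if i = v then 1 else 0, 0, 0, 0⟩
    simpa [incForm, inc] using this
  have hw : ∀ v : Fin 9, ∑ t : Fin 8 × Fin 3, c t * (if pt t.1 t.2 = v then 1 else 0) = 0 := by
    intro v
    have := hm ⟨0, fun i => if i = v then 1 else 0, 0, 0⟩
    simpa [incForm, inc] using this
  have hU : ∀ j : Fin 8, ∑ t : Fin 8 × Fin 3, c t * (sc.x (pt t.1 t.2) * (if t.1 = j then 1 else 0)) = 0 := by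
    intro j
    have := hm ⟨0, 0, fun i => if i = j then 1 else 0, 0⟩
    simpa [incForm, inc] using this
  have hW : ∀ j : Fin 8, ∑ t : Fin 8 × Fin 3, c t * (if t.1 = j then 1 else 0) = 0 := by
    intro j
    have := hm ⟨0, 0, 0, fun i => if i = j then 1 else 0⟩
    simpa [incForm, inc] using this
  have w8 := hw 8
  have u8 := hu 8
  have w7 := hw 7
  have u7 := hu 7
  have w6 := hw 6
  have u6 := hu 6
  have w2 := hw 2
  have w5 := hw 5
  have U0 := hU 0
  have U1 := hU 1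
  have U2 := hU 2
  have U3 := hU 3
  have U4 := hU 4
  have U5 := hU 5
  have U6 := hU 6
  have U7 := hU 7
  have W0 := hW 0
  have W1 := hW 1
  have W2 := hW 2
  have W3 := hW 3
  have W4 := hW 4
  have W5 := hW 5
  have W6 := hW 6
  have W7 := hW 7
  rw [Fintype.sum_prod_type] at w8 u8 w7 u7 w6 u6 w2 w5 U0 U1 U2 U3 U4 U5 U6 U7 W0 W1 W2 W3 W4 W5 W6 W7
  simp [Fin.sum_univ_eight, Fin.sum_univ_three, pt, sc] at w8 u8 w7 u7 w6 u6 w2 w5 U0 U1 U2 U3 U4 U5 U6 U7 W0 W1 W2 W3 W4 W5 W6 W7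
  rintro ⟨j, k⟩
  fin_cases j <;> fin_cases k <;> simp <;> linarith


theorem inc_injective : Function.Injective inc := by
  rintro ⟨j, k⟩ ⟨j', k'⟩ h
  unfold inc at h
  rw [Prod.mk.injEq] at h
  obtain ⟨h1, h2⟩ := h
  simp only at h1 h2
  subst h2
  revert h1
  revert j k k'
  decide

theorem inc_indep : IncIndep sc II := by
  unfold IncIndep
  have hex : ∀ p : II, ∃ t : Fin 8 × Fin 3, inc t = p.1 := by
    intro p
    obtain ⟨t, _, ht⟩ := Finset.mem_image.mp p.2
    exact ⟨t, ht⟩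
  choose idx hidx using hex
  have hinj : Function.Injective idx := by
    intro p q h
    apply Subtype.ext
    rw [← hidx p, ← hidx q, h]
  have h1 := lin_ind.comp idx hinj
  have h2 : ((fun t : Fin 8 × Fin 3 => incForm sc (inc t)) ∘ idx) = (fun p : II => incForm sc p.1) := by
    funext p
    show incForm sc (inc (idx p)) = incForm sc p.1
    rw [hidx p]
  rw [h2] at h1
  exact h1

/-! ### The count -/

theorem core : ∀ a0 a1 a2 a3 a4 a5 a6 a7 a8 : Bool,
    2 ≤ a0.toNat + a1.toNat + a2.toNat + a3.toNat + a4.toNat + a5.toNat + a6.toNat + a7.toNat + a8.toNat →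
    ((a6 && a7).toNat + (a7 && a8).toNat + (a6 && a8).toNat + (a0 && a4).toNat + (a1 && a5).toNat +
      (a2 && a3).toNat) +
    ((a0 && a1 && a2).toNat + (a3 && a4 && a5).toNat + (a0 && a4 && a8).toNat + (a1 && a3 && a8).toNat +
      (a0 && a5 && a7).toNat + (a2 && a3 && a7).toNat + (a1 && a5 && a6).toNat + (a2 && a4 && a6).toNat) + 3 ≤
    2 * (a0.toNat + a1.toNat + a2.toNat + a3.toNat + a4.toNat + a5.toNat + a6.toNat + a7.toNat + a8.toNat) := by
  decide +kernel

theorem line_bound : ∀ p q r b : Bool, (p && b).toNat + (q && b).toNat + (r && b).toNat ≤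
    2 * b.toNat + (p && q && r).toNat := by
  decide

theorem ed_ne : ∀ t : Fin 6, (ed t).1 ≠ (ed t).2 := by decide

theorem card_eq_sum {n : ℕ} (X : Finset (Fin n)) : X.card = ∑ i : Fin n, (decide (i ∈ X)).toNat := by
  rw [Finset.card_eq_sum_ones, ← Finset.sum_filter_add_sum_filter_not Finset.univ (· ∈ X)]
  have h1 : ∑ x ∈ Finset.univ.filter (· ∈ X), (decide (x ∈ X)).toNat = ∑ x ∈ X, 1 := by
    rw [Finset.filter_mem_eq_inter, Finset.univ_inter]
    apply Finset.sum_congr rfl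
    intro x hx
    simp [hx]
  have h2 : ∑ x ∈ Finset.univ.filter (fun x => ¬ x ∈ X), (decide (x ∈ X)).toNat = 0 := by
    apply Finset.sum_eq_zero
    intro x hx
    simp [(Finset.mem_filter.mp hx).2]
  rw [h1, h2, add_zero]

theorem count_ok : Count EE II := by
  intro E' hE I' hI hne
  obtain ⟨X, hX⟩ : ∃ X, X = verts E' I' := ⟨_, rfl⟩
  obtain ⟨Y, hY⟩ : ∃ Y, Y = faces I' := ⟨_, rfl⟩
  rw [← hX, ← hY]
  have hE1 : ∀ e ∈ E', e.1 ∈ X := by
    intro e he
    rw [hX]
    exact Finset.mem_union_left _ (Finset.mem_union_left _ (Finset.mem_image_of_mem _ he))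
  have hE2 : ∀ e ∈ E', e.2 ∈ X := by
    intro e he
    rw [hX]
    exact Finset.mem_union_left _ (Finset.mem_union_right _ (Finset.mem_image_of_mem _ he))
  have hI1 : ∀ p ∈ I', p.1 ∈ X := by
    intro p hp
    rw [hX]
    exact Finset.mem_union_right _ (Finset.mem_image_of_mem _ hp)
  have hI2 : ∀ p ∈ I', p.2 ∈ Y := by
    intro p hp
    rw [hY]
    exact Finset.mem_image_of_mem _ hp
  have hXne : X.Nonempty := by
    rcases hne with ⟨e, he⟩ | ⟨p, hp⟩
    · exact ⟨_, hE1 e he⟩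
    · exact ⟨_, hI1 p hp⟩
  have hEn : ∀ e ∈ E', e.1 ≠ e.2 := by
    intro e he
    obtain ⟨t, _, rfl⟩ := Finset.mem_image.mp (hE he)
    exact ed_ne t
  by_cases hcard : 2 ≤ X.card
  · -- bounds
    have bE : E'.card ≤ ∑ t : Fin 6, (decide ((ed t).1 ∈ X) && decide ((ed t).2 ∈ X)).toNat := by
      have hsub : E' ⊆ (Finset.univ.filter (fun t => (ed t).1 ∈ X ∧ (ed t).2 ∈ X)).image ed := by
        intro e he
        obtain ⟨t, _, rfl⟩ := Finset.mem_image.mp (hE he)
        exact Finset.mem_image_of_mem _ (Finset.mem_filter.mpr ⟨Finset.mem_univ _, hE1 _ he, hE2 _ he⟩)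
      refine (Finset.card_le_card hsub).trans (Finset.card_image_le.trans ?_)
      rw [Finset.card_filter]
      apply Finset.sum_le_sum
      intro t _
      by_cases h : (ed t).1 ∈ X ∧ (ed t).2 ∈ X
      · simp [h.1, h.2]
      · rw [if_neg h]
        exact Nat.zero_le _
    have bI : I'.card ≤ ∑ j : Fin 8, ∑ k : Fin 3, (decide (pt j k ∈ X) && decide (j ∈ Y)).toNat := by
      have hsub : I' ⊆ (Finset.univ.filter (fun t : Fin 8 × Fin 3 => pt t.1 t.2 ∈ X ∧ t.1 ∈ Y)).image inc := by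
        intro p hp
        obtain ⟨t, _, rfl⟩ := Finset.mem_image.mp (hI hp)
        exact Finset.mem_image_of_mem _ (Finset.mem_filter.mpr ⟨Finset.mem_univ _, hI1 _ hp, hI2 _ hp⟩)
      refine (Finset.card_le_card hsub).trans (Finset.card_image_le.trans ?_)
      rw [Finset.card_filter, Fintype.sum_prod_type]
      apply Finset.sum_le_sum
      intro j _
      apply Finset.sum_le_sum
      intro k _
      by_cases h : pt j k ∈ X ∧ j ∈ Y
      · simp [h.1, h.2]
      · rw [if_neg h]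
        exact Nat.zero_le _
    have bI' : I'.card ≤ ∑ j : Fin 8, (2 * (decide (j ∈ Y)).toNat +
        (decide (pt j 0 ∈ X) && decide (pt j 1 ∈ X) && decide (pt j 2 ∈ X)).toNat) := by
      refine bI.trans (Finset.sum_le_sum fun j _ => ?_)
      rw [Fin.sum_univ_three]
      exact line_bound _ _ _ _
    rw [Finset.sum_add_distrib, ← Finset.mul_sum, ← card_eq_sum Y] at bI'
    have cX := card_eq_sum X
    have hcore := core (decide (0 ∈ X)) (decide (1 ∈ X)) (decide (2 ∈ X)) (decide (3 ∈ X)) (decide (4 ∈ X))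
      (decide (5 ∈ X)) (decide (6 ∈ X)) (decide (7 ∈ X)) (decide (8 ∈ X))
    have e1 : ∑ t : Fin 6, (decide ((ed t).1 ∈ X) && decide ((ed t).2 ∈ X)).toNat =
        (decide (6 ∈ X) && decide (7 ∈ X)).toNat + (decide (7 ∈ X) && decide (8 ∈ X)).toNat +
        (decide (6 ∈ X) && decide (8 ∈ X)).toNat + (decide (0 ∈ X) && decide (4 ∈ X)).toNat +
        (decide (1 ∈ X) && decide (5 ∈ X)).toNat + (decide (2 ∈ X) && decide (3 ∈ X)).toNat := by
      rw [Fin.sum_univ_six]
      rfl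
    have e2 : ∑ j : Fin 8, (decide (pt j 0 ∈ X) && decide (pt j 1 ∈ X) && decide (pt j 2 ∈ X)).toNat =
        (decide (0 ∈ X) && decide (1 ∈ X) && decide (2 ∈ X)).toNat +
        (decide (3 ∈ X) && decide (4 ∈ X) && decide (5 ∈ X)).toNat +
        (decide (0 ∈ X) && decide (4 ∈ X) && decide (8 ∈ X)).toNat +
        (decide (1 ∈ X) && decide (3 ∈ X) && decide (8 ∈ X)).toNat +
        (decide (0 ∈ X) && decide (5 ∈ X) && decide (7 ∈ X)).toNat +
        (decide (2 ∈ X) && decide (3 ∈ X) && decide (7 ∈ X)).toNat +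
        (decide (1 ∈ X) && decide (5 ∈ X) && decide (6 ∈ X)).toNat +
        (decide (2 ∈ X) && decide (4 ∈ X) && decide (6 ∈ X)).toNat := by
      rw [Fin.sum_univ_eight]
      rfl
    have e3 : ∑ i : Fin 9, (decide (i ∈ X)).toNat = (decide (0 ∈ X)).toNat + (decide (1 ∈ X)).toNat +
        (decide (2 ∈ X)).toNat + (decide (3 ∈ X)).toNat + (decide (4 ∈ X)).toNat + (decide (5 ∈ X)).toNat +
        (decide (6 ∈ X)).toNat + (decide (7 ∈ X)).toNat + (decide (8 ∈ X)).toNat := by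
      rw [Fin.sum_univ_castSucc, Fin.sum_univ_eight]
      rfl
    rw [e1] at bE
    rw [e2] at bI'
    rw [e3] at cX
    rw [← cX] at hcore
    have := hcore hcard
    omega
  · have h1 : X.card = 1 := by
      have := Finset.card_pos.mpr hXne
      omega
    obtain ⟨x, hx⟩ := Finset.card_eq_one.mp h1
    have hEe : E' = ∅ := by
      rw [Finset.eq_empty_iff_forall_notMem]
      intro e he
      apply hEn e he
      have a := hE1 e he
      have b := hE2 e he
      rw [hx, Finset.mem_singleton] at a b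
      rw [a, b]
    have hIne : I'.Nonempty := by
      rcases hne with h | h
      · rw [hEe] at h
        exact absurd h Finset.not_nonempty_empty
      · exact h
    have hIY : I'.card = Y.card := by
      rw [hY]
      unfold faces
      rw [Finset.card_image_of_injOn]
      intro p hp q hq h
      have a := hI1 p hp
      have b := hI1 q hq
      rw [hx, Finset.mem_singleton] at a b
      exact Prod.ext (a.trans b.symm) h
    have := Finset.card_pos.mpr hIne
    rw [hEe, Finset.card_empty, h1]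
    omega

theorem proper : ProperPairs EE := by
  have key : ∀ t t' : Fin 6, ed t' ≠ ((ed t).2, (ed t).1) := by decide
  intro i k h h'
  obtain ⟨t, _, ht⟩ := Finset.mem_image.mp h
  obtain ⟨t', _, ht'⟩ := Finset.mem_image.mp h'
  apply key t t'
  rw [ht', ht]

theorem linear_space : ∀ i ∈ (Finset.univ : Finset (Fin 9)), ∀ k, ∀ j l, i ≠ k → j ≠ l → (i, j) ∈ II →
    (k, j) ∈ II → (i, l) ∈ II → (k, l) ∈ II → False := by
  decide +kernel

/-- There are an incidence structure `(V, F; I)` that is independent for plane incidence (even at a 2-scene whose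
points are pairwise distinct and whose lines are pairwise distinct, and with any two faces sharing at most one
vertex) and a set `E` of distance constraints such that the count holds for all nonempty subsets while
`E ∪ I` is dependent at every 2-scene realising `(V, F; I)`. -/
theorem result : ∃ (I : Finset (Fin 9 × Fin 8)) (E : Finset (Fin 9 × Fin 9)),
    ProperPairs E ∧
    (∀ i k j l, i ≠ k → j ≠ l → (i, j) ∈ I → (k, j) ∈ I → (i, l) ∈ I → (k, l) ∈ I → False) ∧
    (∃ s : Scene (Fin 9) (Fin 8), Realises s I ∧ IncIndep s I ∧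
      (∀ i k, i ≠ k → (s.x i, s.y i) ≠ (s.x k, s.y k)) ∧ (∀ j l, j ≠ l → (s.A j, s.C j) ≠ (s.A l, s.C l))) ∧
    Count E I ∧
    ∀ s : Scene (Fin 9) (Fin 8), Realises s I → ¬ BothIndep s E I := by
  refine ⟨II, EE, proper, fun i => linear_space i (Finset.mem_univ i), ⟨sc, sc_real, inc_indep, ?_, ?_⟩,
    count_ok, ?_⟩
  · intro i k hik h
    rw [Prod.mk.injEq] at h
    have h1 := h.1
    clear h
    revert hik h1
    fin_cases i <;> fin_cases k <;> simp [sc] <;> norm_num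
  · intro j l hjl h
    rw [Prod.mk.injEq] at h
    obtain ⟨h1, h2⟩ := h
    revert hjl h1 h2
    fin_cases j <;> fin_cases l <;> simp [sc] <;> norm_num
  · intro s hs hb
    apply dep s hs
    exact hb.comp Sum.inl Sum.inl_injective

end Pool.Agent.Results.MP_b5aa09_co.PappusCounterexample
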